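import Mathlib

/-!
# Cyclic groups whose largest `t`-independent set has size one, `t` odd

For odd `t ≥ 3`, all `n` with `τ_±(ℤ_n, [1,t]) = 1` are determined.
-/

set_option autoImplicit false

open Finset

namespace Pool.Agent.Results.MP_c28122_co.OddOne

/-- `A ⊆ ℤ_n` is `t`-independent: the only integer coefficients `(λ_a)` (`a ∈ A`) with
`∑ |λ_a| ≤ t` and `∑ λ_a a = 0` are all zero. -/
def Indep {n : ℕ} (t : ℕ) (A : Finset (ZMod n)) : Prop :=
  ∀ c : ZMod n → ℤ, ∑ a ∈ A, |c a| ≤ (t : ℤ) → ∑ a ∈ A, c a • a = 0 → ∀ a ∈ A, c a = 0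

/-- `τ_±(ℤ_n, [1,t])`: the largest size of a `t`-independent subset of `ℤ_n`. -/
noncomputable def tau (n t : ℕ) : ℕ :=
  sSup {m | ∃ A : Finset (ZMod n), Indep t A ∧ A.card = m}

/-- `b_t = ⌊t²/2⌋ + t`. -/
def bt (t : ℕ) : ℕ := t ^ 2 / 2 + t

/-- Pair form of independence. -/
def Ind2 {n : ℕ} (t : ℤ) (a b : ZMod n) : Prop :=
  ∀ x y : ℤ, |x| + |y| ≤ t → x • a + y • b = 0 → x = 0 ∧ y = 0

theorem ind2_of_indep {n t : ℕ} {A : Finset (ZMod n)} (hA : Indep t A) {a b : ZMod n}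
    (ha : a ∈ A) (hb : b ∈ A) (hab : a ≠ b) : Ind2 (t : ℤ) a b := by
  intro x y hxy h
  have h1 : ∀ z ∈ A, |(if z = a then x else 0) + (if z = b then y else 0)| =
      (if z = a then |x| else 0) + (if z = b then |y| else 0) := by
    intro z _
    by_cases hz : z = a
    · rw [if_pos hz, if_pos hz, if_neg (fun h => hab (hz.symm.trans h)),
        if_neg (fun h => hab (hz.symm.trans h)), add_zero, add_zero]
    · rw [if_neg hz, if_neg hz, zero_add, zero_add]
      split_ifs <;> simp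
  have h2 : ∀ z ∈ A, ((if z = a then x else 0) + (if z = b then y else 0)) • z =
      (if z = a then x • z else 0) + (if z = b then y • z else 0) := by
    intro z _
    rw [add_zsmul]
    split_ifs <;> simp
  have key := hA (fun z => (if z = a then x else 0) + (if z = b then y else 0)) (by
    rw [sum_congr rfl h1, sum_add_distrib, sum_ite_eq' A a, sum_ite_eq' A b, if_pos ha, if_pos hb]
    exact hxy) (by
    rw [sum_congr rfl h2, sum_add_distrib, sum_ite_eq' A a, sum_ite_eq' A b, if_pos ha, if_pos hb]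
    exact h)
  have ka := key a ha
  have kb := key b hb
  simp only [if_true, if_neg hab, if_neg hab.symm, add_zero, zero_add] at ka kb
  exact ⟨ka, kb⟩

theorem indep_pair {n t : ℕ} {a b : ZMod n} (hab : a ≠ b) (h : Ind2 (t : ℤ) a b) :
    Indep t ({a, b} : Finset (ZMod n)) := by
  intro c hc1 hc2
  rw [sum_pair hab] at hc1 hc2
  obtain ⟨h1, h2⟩ := h _ _ hc1 hc2
  intro z hz
  rw [mem_insert, mem_singleton] at hz
  rcases hz with rfl | rfl
  · exact h1
  · exact h2

theorem bdd (n t : ℕ) [NeZero n] :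
    BddAbove {m | ∃ A : Finset (ZMod n), Indep t A ∧ A.card = m} := by
  refine ⟨n, ?_⟩
  rintro m ⟨A, -, rfl⟩
  calc A.card ≤ Fintype.card (ZMod n) := card_le_univ A
    _ = n := ZMod.card n

theorem attained (n t : ℕ) [NeZero n] : ∃ A : Finset (ZMod n), Indep t A ∧ A.card = tau n t := by
  have hne : {m | ∃ A : Finset (ZMod n), Indep t A ∧ A.card = m}.Nonempty :=
    ⟨0, ∅, fun c _ _ a ha => absurd ha (notMem_empty a), card_empty⟩
  exact Nat.sSup_mem hne (bdd n t)

theorem two_le_tau (n t : ℕ) [NeZero n] (a b : ZMod n) (hab : a ≠ b) (h : Ind2 (t : ℤ) a b) :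
    2 ≤ tau n t :=
  le_csSup (bdd n t) ⟨{a, b}, indep_pair hab h, card_pair hab⟩

theorem tau_le_one (n t : ℕ) [NeZero n] (h : ∀ a b : ZMod n, a ≠ b → ¬ Ind2 (t : ℤ) a b) :
    tau n t ≤ 1 := by
  obtain ⟨A, hA, hcard⟩ := attained n t
  by_contra hcon
  push Not at hcon
  rw [← hcard] at hcon
  obtain ⟨a, ha, b, hb, hab⟩ := one_lt_card.1 hcon
  exact h a b hab (ind2_of_indep hA ha hb hab)

theorem tau_eq_zero (n t : ℕ) [NeZero n] (h : n ≤ t) : tau n t = 0 := by
  obtain ⟨A, hA, hcard⟩ := attained n t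
  rw [← hcard, card_eq_zero]
  by_contra hne
  obtain ⟨a, ha⟩ := nonempty_iff_ne_empty.2 hne
  have hn : (n : ℤ) ≠ 0 := by exact_mod_cast NeZero.ne n
  have key := hA (fun z => if z = a then (n : ℤ) else 0) (by
    have : ∀ z ∈ A, |(if z = a then (n : ℤ) else 0)| = if z = a then (n : ℤ) else 0 := by
      intro z _
      split_ifs
      · exact abs_of_nonneg (by positivity)
      · exact abs_zero
    rw [sum_congr rfl this, sum_ite_eq' A a, if_pos ha]
    exact_mod_cast h) (by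
    apply sum_eq_zero
    intro z _
    split_ifs
    · rw [zsmul_eq_mul]; simp
    · exact zero_zsmul z) a ha
  simp only [if_true] at key
  exact hn key

theorem one_le_tau (n t : ℕ) [NeZero n] (h : t + 1 ≤ n) : 1 ≤ tau n t := by
  refine le_csSup (bdd n t) ⟨{1}, ?_, card_singleton 1⟩
  intro c hc1 hc2 a ha
  rw [mem_singleton] at ha
  subst ha
  rw [sum_singleton] at hc1 hc2
  rw [zsmul_eq_mul, mul_one, ZMod.intCast_zmod_eq_zero_iff_dvd] at hc2
  apply Int.eq_zero_of_abs_lt_dvd hc2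
  have : ((t + 1 : ℕ) : ℤ) ≤ n := by exact_mod_cast h
  push_cast at this
  linarith

/-- The relation between `|x| + |y|` and `max |x+y| |x-y|`. -/
theorem l1_le (x y M : ℤ) (h1 : |x + y| ≤ M) (h2 : |x - y| ≤ M) : |x| + |y| ≤ M := by
  rw [abs_le] at h1 h2
  rcases abs_cases x with ⟨hx, _⟩ | ⟨hx, _⟩ <;> rcases abs_cases y with ⟨hy, _⟩ | ⟨hy, _⟩ <;>
    rw [hx, hy] <;> linarith

section upper

variable {n : ℕ} [NeZero n]

/-- The `2e²` values used in the first pigeonhole argument are distinct. -/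
theorem inj_values (e : ℕ) (a b : ZMod n) (h : Ind2 (2 * (e : ℤ) - 1) a b) :
    Function.Injective (fun z : (Fin e × Fin e) ⊕ (Fin e × Fin e) =>
      Sum.elim (fun p => ((p.1.val : ℤ) + p.2.val) • a + ((p.1.val : ℤ) - p.2.val) • b)
        (fun p => ((p.1.val : ℤ) + p.2.val + 1) • a + ((p.1.val : ℤ) - p.2.val) • b) z) := by
  have diff : ∀ x y x' y' : ℤ, x • a + y • b = x' • a + y' • b →
      (x - x') • a + (y - y') • b = 0 := by
    intro x y x' y' hh
    have : (x - x') • a + (y - y') • b = (x • a + y • b) - (x' • a + y' • b) := by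
      rw [sub_zsmul, sub_zsmul]; abel
    rw [this, hh, sub_self]
  intro z z' hzz
  rcases z with ⟨i, j⟩ | ⟨i, j⟩ <;> rcases z' with ⟨i', j'⟩ | ⟨i', j'⟩ <;>
    simp only [Sum.elim_inl, Sum.elim_inr] at hzz
  · have hi := i.2; have hj := j.2; have hi' := i'.2; have hj' := j'.2
    have h0 := h _ _ (l1_le _ _ _ (abs_le.2 ⟨by omega, by omega⟩) (abs_le.2 ⟨by omega, by omega⟩))
      (diff _ _ _ _ hzz)
    have e1 : i = i' := Fin.ext (by omega)
    have e2 : j = j' := Fin.ext (by omega)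
    rw [e1, e2]
  · have hi := i.2; have hj := j.2; have hi' := i'.2; have hj' := j'.2
    have h0 := h _ _ (l1_le _ _ _ (abs_le.2 ⟨by omega, by omega⟩) (abs_le.2 ⟨by omega, by omega⟩))
      (diff _ _ _ _ hzz)
    omega
  · have hi := i.2; have hj := j.2; have hi' := i'.2; have hj' := j'.2
    have h0 := h _ _ (l1_le _ _ _ (abs_le.2 ⟨by omega, by omega⟩) (abs_le.2 ⟨by omega, by omega⟩))
      (diff _ _ _ _ hzz)
    omega
  · have hi := i.2; have hj := j.2; have hi' := i'.2; have hj' := j'.2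
    have h0 := h _ _ (l1_le _ _ _ (abs_le.2 ⟨by omega, by omega⟩) (abs_le.2 ⟨by omega, by omega⟩))
      (diff _ _ _ _ hzz)
    have e1 : i = i' := Fin.ext (by omega)
    have e2 : j = j' := Fin.ext (by omega)
    rw [e1, e2]

theorem card_index (e : ℕ) : Fintype.card ((Fin e × Fin e) ⊕ (Fin e × Fin e)) = 2 * e ^ 2 := by
  rw [Fintype.card_sum, Fintype.card_prod, Fintype.card_fin]
  ring

theorem small_n (e : ℕ) (hn : n < 2 * e ^ 2) (a b : ZMod n) : ¬ Ind2 (2 * (e : ℤ) - 1) a b := by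
  intro h
  have := Fintype.card_le_of_injective _ (inj_values e a b h)
  rw [card_index, ZMod.card] at this
  omega

/-- The short vector from the second pigeonhole argument. -/
theorem exists_vec (e : ℕ) (he : 1 ≤ e) (hn : n < 2 * e ^ 2 + e) (a b : ZMod n)
    (h : Ind2 (2 * (e : ℤ) - 1) a b) :
    ∃ c : ℤ, |c| ≤ (e : ℤ) - 1 ∧ ((e : ℤ) + c) • a + (c - e) • b = 0 := by
  have diff : ∀ x y x' y' : ℤ, x • a + y • b = x' • a + y' • b →
      (x - x') • a + (y - y') • b = 0 := by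
    intro x y x' y' hh
    have : (x - x') • a + (y - y') • b = (x • a + y • b) - (x' • a + y' • b) := by
      rw [sub_zsmul, sub_zsmul]; abel
    rw [this, hh, sub_self]
  have hcard : Fintype.card (ZMod n) < Fintype.card ((Fin e × Fin (e + 1)) ⊕ (Fin e × Fin e)) := by
    rw [Fintype.card_sum, Fintype.card_prod, Fintype.card_prod, Fintype.card_fin, Fintype.card_fin,
      ZMod.card]
    nlinarith
  obtain ⟨z, z', hne, hzz⟩ := Fintype.exists_ne_map_eq_of_card_lt
    (fun z : (Fin e × Fin (e + 1)) ⊕ (Fin e × Fin e) =>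
      Sum.elim (fun p => ((p.1.val : ℤ) + p.2.val) • a + ((p.1.val : ℤ) - p.2.val) • b)
        (fun p => ((p.1.val : ℤ) + p.2.val + 1) • a + ((p.1.val : ℤ) - p.2.val) • b) z) hcard
  rcases z with ⟨i, j⟩ | ⟨i, j⟩ <;> rcases z' with ⟨i', j'⟩ | ⟨i', j'⟩ <;>
    simp only [Sum.elim_inl, Sum.elim_inr] at hzz
  · have hi := i.2; have hj := j.2; have hi' := i'.2; have hj' := j'.2
    have hd := diff _ _ _ _ hzz
    by_cases hlt : |(j.val : ℤ) - j'.val| ≤ (e : ℤ) - 1
    · exfalso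
      rw [abs_le] at hlt
      have h0 := h _ _ (l1_le _ _ _ (abs_le.2 ⟨by omega, by omega⟩) (abs_le.2 ⟨by omega, by omega⟩))
        hd
      apply hne
      have e1 : i = i' := Fin.ext (by omega)
      have e2 : j = j' := Fin.ext (by omega)
      rw [e1, e2]
    · have hj2 : ((j.val : ℤ) = e ∧ (j'.val : ℤ) = 0) ∨ ((j.val : ℤ) = 0 ∧ (j'.val : ℤ) = e) := by
        rw [abs_le] at hlt
        omega
      rcases hj2 with ⟨hj1, hj2⟩ | ⟨hj1, hj2⟩
      · refine ⟨(i.val : ℤ) - i'.val, abs_le.2 ⟨by omega, by omega⟩, ?_⟩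
        rw [hj1, hj2] at hd
        have e1 : (e : ℤ) + ((i.val : ℤ) - i'.val) = (i.val : ℤ) + e - (i'.val + 0) := by ring
        have e2 : ((i.val : ℤ) - i'.val) - e = (i.val : ℤ) - e - (i'.val - 0) := by ring
        rw [e1, e2]
        exact hd
      · refine ⟨(i'.val : ℤ) - i.val, abs_le.2 ⟨by omega, by omega⟩, ?_⟩
        rw [hj1, hj2] at hd
        have e1 : (e : ℤ) + ((i'.val : ℤ) - i.val) = -((i.val : ℤ) + 0 - (i'.val + e)) := by ring
        have e2 : ((i'.val : ℤ) - i.val) - e = -((i.val : ℤ) - 0 - (i'.val - e)) := by ring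
        rw [e1, e2, neg_zsmul, neg_zsmul, ← neg_add, hd, neg_zero]
  · exfalso
    have hi := i.2; have hj := j.2; have hi' := i'.2; have hj' := j'.2
    have h0 := h _ _ (l1_le _ _ _ (abs_le.2 ⟨by omega, by omega⟩) (abs_le.2 ⟨by omega, by omega⟩))
      (diff _ _ _ _ hzz)
    omega
  · exfalso
    have hi := i.2; have hj := j.2; have hi' := i'.2; have hj' := j'.2
    have h0 := h _ _ (l1_le _ _ _ (abs_le.2 ⟨by omega, by omega⟩) (abs_le.2 ⟨by omega, by omega⟩))
      (diff _ _ _ _ hzz)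
    omega
  · exfalso
    have hi := i.2; have hj := j.2; have hi' := i'.2; have hj' := j'.2
    have h0 := h _ _ (l1_le _ _ _ (abs_le.2 ⟨by omega, by omega⟩) (abs_le.2 ⟨by omega, by omega⟩))
      (diff _ _ _ _ hzz)
    apply hne
    have e1 : i = i' := Fin.ext (by omega)
    have e2 : j = j' := Fin.ext (by omega)
    rw [e1, e2]

theorem card_killed (D : ℕ) (hD : 0 < D) :
    ((univ : Finset (ZMod n)).filter (fun z => D • z = 0)).card ≤ Nat.gcd D n := by
  have hn : 0 < n := Nat.pos_of_ne_zero (NeZero.ne n)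
  have hg : 0 < Nat.gcd D n := Nat.gcd_pos_of_pos_right D hn
  refine le_trans (card_le_card ?_) (IsAddCyclic.card_nsmul_eq_zero_le (α := ZMod n) hg)
  intro z hz
  rw [mem_filter] at hz ⊢
  refine ⟨mem_univ z, ?_⟩
  have h1 : addOrderOf z ∣ D := addOrderOf_dvd_of_nsmul_eq_zero hz.2
  have h2 : addOrderOf z ∣ n := addOrderOf_dvd_of_nsmul_eq_zero (by
    rw [nsmul_eq_mul, ZMod.natCast_self, zero_mul])
  exact addOrderOf_dvd_iff_nsmul_eq_zero.1 (Nat.dvd_gcd h1 h2)

/-- The excluded middle range. -/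
theorem middle (e : ℕ) (he : 2 ≤ e) (h1 : 2 * e ^ 2 ≤ n) (h2 : n < 2 * e ^ 2 + e)
    (hpar : (e % 2 = 0 ∧ n % 2 = 1) ∨ (e % 2 = 1 ∧ n % 4 ≠ 2)) (a b : ZMod n) :
    ¬ Ind2 (2 * (e : ℤ) - 1) a b := by
  intro h
  have hn : 0 < n := Nat.pos_of_ne_zero (NeZero.ne n)
  obtain ⟨c, hc, hvc⟩ := exists_vec e (by omega) h2 a b h
  -- the second vector: apply the first construction to the pair `(a, -b)`
  have h' : Ind2 (2 * (e : ℤ) - 1) a (-b) := by
    intro x y hxy hh
    have := h x (-y) (by rw [abs_neg]; exact hxy) (by rw [neg_zsmul, ← zsmul_neg]; exact hh)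
    exact ⟨this.1, by linarith [this.2]⟩
  obtain ⟨d, hd, hvd⟩ := exists_vec e (by omega) h2 a (-b) h'
  rw [zsmul_neg, ← neg_zsmul] at hvd
  -- write `d = -β`
  obtain ⟨β, hβ⟩ : ∃ β : ℤ, β = -d := ⟨_, rfl⟩
  have hd' : d = -β := by rw [hβ]; ring
  rw [hd', abs_neg] at hd
  have hv2 : ((e : ℤ) - β) • a + ((e : ℤ) + β) • b = 0 := by
    have e1 : (e : ℤ) - β = e + d := by rw [hd']; ring
    have e2 : (e : ℤ) + β = -(d - e) := by rw [hd']; ring
    rw [e1, e2]
    exact hvd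
  rw [abs_le] at hc hd
  have he' : (2 : ℤ) ≤ e := by exact_mod_cast he
  set D : ℤ := 2 * (e : ℤ) ^ 2 + 2 * (β * c) with hDdef
  have hDa : D • a = 0 := by
    have : D • a = ((e : ℤ) + β) • (((e : ℤ) + c) • a + (c - e) • b) -
        (c - e) • (((e : ℤ) - β) • a + ((e : ℤ) + β) • b) := by
      simp only [zsmul_eq_mul, hDdef]
      push_cast
      ring
    rw [this, hvc, hv2, smul_zero, smul_zero, sub_self]
  have hDb : D • b = 0 := by
    have : D • b = ((e : ℤ) + c) • (((e : ℤ) - β) • a + ((e : ℤ) + β) • b) -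
        ((e : ℤ) - β) • (((e : ℤ) + c) • a + (c - e) • b) := by
      simp only [zsmul_eq_mul, hDdef]
      push_cast
      ring
    rw [this, hvc, hv2, smul_zero, smul_zero, sub_self]
  have hbc : |β * c| ≤ ((e : ℤ) - 1) * ((e : ℤ) - 1) := by
    rw [abs_mul]
    exact mul_le_mul (abs_le.2 hd) (abs_le.2 hc) (abs_nonneg _) (by linarith)
  rw [abs_le] at hbc
  have hDpos : 0 < D := by rw [hDdef]; nlinarith
  have hDlt : D < 4 * (e : ℤ) ^ 2 := by rw [hDdef]; nlinarith
  obtain ⟨D', hD'⟩ : ∃ D' : ℕ, (D' : ℤ) = D := ⟨D.toNat, Int.toNat_of_nonneg hDpos.le⟩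
  have hD'pos : 0 < D' := by exact_mod_cast (hD'.symm ▸ hDpos)
  -- all `2e²` values are killed by `D`
  have hkill : 2 * e ^ 2 ≤ Nat.gcd D' n := by
    refine le_trans ?_ (card_killed D' hD'pos)
    rw [← card_index e, ← Fintype.card_coe]
    refine Fintype.card_le_of_injective (fun z => ⟨Sum.elim
        (fun p : Fin e × Fin e => ((p.1.val : ℤ) + p.2.val) • a + ((p.1.val : ℤ) - p.2.val) • b)
        (fun p => ((p.1.val : ℤ) + p.2.val + 1) • a + ((p.1.val : ℤ) - p.2.val) • b) z, ?_⟩) ?_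
    · rw [mem_filter]
      refine ⟨mem_univ _, ?_⟩
      have hk : ∀ x y : ℤ, D' • (x • a + y • b) = 0 := by
        intro x y
        rw [← natCast_zsmul, hD', smul_add, smul_comm D x a, smul_comm D y b, hDa, hDb, smul_zero,
          smul_zero, add_zero]
      rcases z with p | p
      · exact hk _ _
      · exact hk _ _
    · intro z z' hzz
      exact inj_values e a b h (Subtype.ext_iff.1 hzz)
  have hgn : Nat.gcd D' n = n := by
    obtain ⟨q, hq⟩ := Nat.gcd_dvd_right D' n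
    rcases (by omega : q = 0 ∨ q = 1 ∨ 2 ≤ q) with h0 | h0 | h0
    · rw [h0, mul_zero] at hq; omega
    · rw [h0, mul_one] at hq; exact hq.symm
    · exfalso
      have h5 : Nat.gcd D' n * 2 ≤ Nat.gcd D' n * q := Nat.mul_le_mul_left _ h0
      rw [← hq] at h5
      nlinarith
  have hnD : n ∣ D' := by
    have := Nat.gcd_dvd_left D' n
    rwa [hgn] at this
  have hDn : D' = n := by
    obtain ⟨q, hq⟩ := hnD
    have h5 : (D' : ℤ) < 4 * (e : ℤ) ^ 2 := by rw [hD']; exact hDlt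
    have h6 : D' < 4 * e ^ 2 := by exact_mod_cast h5
    rcases (by omega : q = 0 ∨ q = 1 ∨ 2 ≤ q) with h0 | h0 | h0
    · rw [h0, mul_zero] at hq; omega
    · rw [h0, mul_one] at hq; exact hq
    · exfalso
      have h7 : n * 2 ≤ n * q := Nat.mul_le_mul_left _ h0
      rw [← hq] at h7
      omega
  have hneq : (n : ℤ) = 2 * (e : ℤ) ^ 2 + 2 * (β * c) := by rw [← hDn, hD']
  rcases hpar with ⟨_, hn2⟩ | ⟨he2, hn4⟩
  · omega
  · -- `e` odd, `4 ∣ n`
    obtain ⟨ε, hε⟩ : ∃ ε : ℤ, (e : ℤ) = 2 * ε + 1 := ⟨((e : ℤ) - 1) / 2, by omega⟩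
    have hn4' : (n : ℤ) % 4 = 0 := by omega
    have hodd : (β * c) % 2 = 1 := by
      have h5 : (e : ℤ) ^ 2 = 4 * (ε ^ 2 + ε) + 1 := by rw [hε]; ring
      rw [h5] at hneq
      omega
    have hβodd : β % 2 = 1 := by
      rcases Int.emod_two_eq_zero_or_one β with h0 | h0
      · rw [Int.mul_emod, h0] at hodd; simp at hodd
      · exact h0
    have hcodd : c % 2 = 1 := by
      rcases Int.emod_two_eq_zero_or_one c with h0 | h0
      · rw [Int.mul_emod, h0] at hodd; simp at hodd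
      · exact h0
    obtain ⟨γ, hγ⟩ : ∃ γ : ℤ, c = 2 * γ + 1 := ⟨c / 2, by omega⟩
    obtain ⟨δ, hδ⟩ : ∃ δ : ℤ, β = 2 * δ + 1 := ⟨β / 2, by omega⟩
    set u : ZMod n := (ε + γ + 1) • a + (γ - ε) • b with hu
    set w : ZMod n := (ε - δ) • a + (ε + δ + 1) • b with hw
    have hu2 : 2 • u = 0 := by
      rw [← hvc, hu, hε, hγ]
      simp only [zsmul_eq_mul, nsmul_eq_mul]
      push_cast
      ring
    have hw2 : 2 • w = 0 := by
      rw [← hv2, hw, hε, hδ]
      simp only [zsmul_eq_mul, nsmul_eq_mul]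
      push_cast
      ring
    have hu0 : u ≠ 0 := by
      intro h0
      have := h _ _ (l1_le _ _ _ (abs_le.2 ⟨by omega, by omega⟩) (abs_le.2 ⟨by omega, by omega⟩)) h0
      omega
    have hw0 : w ≠ 0 := by
      intro h0
      have := h _ _ (l1_le _ _ _ (abs_le.2 ⟨by omega, by omega⟩) (abs_le.2 ⟨by omega, by omega⟩)) h0
      omega
    have huw : u = w := by
      by_contra hne
      have h3 : ({0, u, w} : Finset (ZMod n)).card = 3 := by
        rw [card_insert_of_notMem, card_pair hne]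
        rw [mem_insert, mem_singleton]
        push Not
        exact ⟨hu0.symm, hw0.symm⟩
      have h4 : ({0, u, w} : Finset (ZMod n)).card ≤ 2 := by
        refine le_trans (card_le_card ?_)
          (IsAddCyclic.card_nsmul_eq_zero_le (α := ZMod n) (n := 2) (by norm_num))
        intro z hz
        rw [mem_insert, mem_insert, mem_singleton] at hz
        rw [mem_filter]
        refine ⟨mem_univ z, ?_⟩
        rcases hz with rfl | rfl | rfl
        · exact smul_zero 2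
        · exact hu2
        · exact hw2
      omega
    have hsum : (2 * ε + γ - δ + 1) • a + (γ + δ + 1) • b = 0 := by
      have : (2 * ε + γ - δ + 1) • a + (γ + δ + 1) • b = u + w := by
        rw [hu, hw]
        simp only [zsmul_eq_mul]
        push_cast
        ring
      rw [this, ← huw, ← two_nsmul, hu2]
    have := h _ _ (l1_le _ _ _ (abs_le.2 ⟨by omega, by omega⟩) (abs_le.2 ⟨by omega, by omega⟩)) hsum
    omega

end upper

section lower

theorem zsmul_rel {n : ℕ} (p q : ℕ) (x y : ℤ) (h : x • (p : ZMod n) + y • (q : ZMod n) = 0) :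
    (n : ℤ) ∣ p * x + q * y := by
  rw [← ZMod.intCast_zmod_eq_zero_iff_dvd]
  push_cast
  rw [zsmul_eq_mul, zsmul_eq_mul] at h
  rw [← h]
  ring

theorem ne_cast {n p q : ℕ} (h1 : p < q) (h2 : q - p < n) : (p : ZMod n) ≠ (q : ZMod n) := by
  intro h
  have h3 : ((q - p : ℕ) : ZMod n) = 0 := by
    rw [Nat.cast_sub h1.le, h, sub_self]
  rw [ZMod.natCast_eq_zero_iff] at h3
  have := Nat.le_of_dvd (by omega) h3
  omega

/-- The homogeneous relation `p x + q y = 0` with coprime `p, q`. -/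
theorem homog {p q : ℕ} (hp : 0 < p) (hq : 0 < q) (hpq : Nat.Coprime p q) {x y : ℤ}
    (h : (p : ℤ) * x + q * y = 0) (hlt : |x| + |y| < p + q) : x = 0 ∧ y = 0 := by
  have h1 : (q : ℤ) ∣ x := by
    have : (q : ℤ) ∣ p * x := ⟨-y, by linarith⟩
    exact (Int.isCoprime_iff_gcd_eq_one.2 (by
      rw [Int.gcd_natCast_natCast]; exact hpq.symm)).dvd_of_dvd_mul_left this
  obtain ⟨k, hk⟩ := h1
  have hq' : (0 : ℤ) < q := by exact_mod_cast hq
  have hp' : (0 : ℤ) < p := by exact_mod_cast hp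
  have hy : y = -(p * k) := by
    have : (q : ℤ) * (p * k + y) = 0 := by rw [hk] at h; linarith
    rcases mul_eq_zero.1 this with h0 | h0
    · omega
    · linarith
  have habs : |x| + |y| = (p + q) * |k| := by
    rw [hk, hy, abs_neg, abs_mul, abs_mul, abs_of_pos hq', abs_of_pos hp']
    ring
  rw [habs] at hlt
  have hk0 : k = 0 := by
    by_contra hne
    have : 1 ≤ |k| := Int.one_le_abs hne
    nlinarith
  rw [hk, hy, hk0]
  simp

/-- Large `n`. -/
theorem large (e n : ℕ) [NeZero n] (he : 2 ≤ e) (hn : 2 * e ^ 2 + e ≤ n) :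
    Ind2 (2 * (e : ℤ) - 1) (e : ZMod n) ((e + 1 : ℕ) : ZMod n) := by
  intro x y hxy h
  have hdvd := zsmul_rel e (e + 1) x y h
  have he' : (2 : ℤ) ≤ e := by exact_mod_cast he
  have hn' : 2 * (e : ℤ) ^ 2 + e ≤ n := by exact_mod_cast hn
  have h0 : (e : ℤ) * x + ((e + 1 : ℕ) : ℤ) * y = 0 := by
    apply Int.eq_zero_of_abs_lt_dvd hdvd
    push_cast
    calc |(e : ℤ) * x + (e + 1) * y| ≤ |(e : ℤ) * x| + |((e : ℤ) + 1) * y| := abs_add_le _ _
      _ = e * |x| + (e + 1) * |y| := by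
        rw [abs_mul, abs_mul, abs_of_nonneg (by linarith : (0 : ℤ) ≤ e),
          abs_of_nonneg (by linarith : (0 : ℤ) ≤ (e : ℤ) + 1)]
      _ ≤ (e + 1) * (|x| + |y|) := by nlinarith [abs_nonneg x]
      _ ≤ (e + 1) * (2 * (e : ℤ) - 1) := mul_le_mul_of_nonneg_left hxy (by linarith)
      _ < n := by nlinarith
  refine homog (by omega) (by omega) ?_ h0 ?_
  · simp
  · push_cast; linarith

/-- The pair `{e - 1, e + 1}` for even `e` and even `n`. -/
theorem even_even (e n : ℕ) [NeZero n] (he : 2 ≤ e) (hn : 2 * e ^ 2 ≤ n) (he2 : e % 2 = 0)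
    (hn2 : n % 2 = 0) :
    Ind2 (2 * (e : ℤ) - 1) ((e - 1 : ℕ) : ZMod n) ((e + 1 : ℕ) : ZMod n) := by
  intro x y hxy h
  have hdvd := zsmul_rel (e - 1) (e + 1) x y h
  have he' : (2 : ℤ) ≤ e := by exact_mod_cast he
  have hn' : 2 * (e : ℤ) ^ 2 ≤ n := by exact_mod_cast hn
  have hc1 : ((e - 1 : ℕ) : ℤ) = (e : ℤ) - 1 := by omega
  have hc2 : ((e + 1 : ℕ) : ℤ) = (e : ℤ) + 1 := by push_cast; ring
  rw [hc1, hc2] at hdvd
  -- parity
  have h2n : (2 : ℤ) ∣ n := by omega
  have hev : (2 : ℤ) ∣ ((e : ℤ) - 1) * x + ((e : ℤ) + 1) * y := dvd_trans h2n hdvd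
  have hxy2 : (x + y) % 2 = 0 := by
    obtain ⟨k, hk⟩ : ∃ k : ℤ, (e : ℤ) = 2 * k := ⟨(e : ℤ) / 2, by omega⟩
    rw [hk] at hev
    have : (2 * k - 1) * x + (2 * k + 1) * y = 2 * (k * x + k * y - x) + (x + y) := by ring
    rw [this] at hev
    omega
  have hle : |x| + |y| ≤ 2 * (e : ℤ) - 2 := by
    have : (|x| + |y|) % 2 = 0 := by
      rcases abs_cases x with ⟨hx, _⟩ | ⟨hx, _⟩ <;> rcases abs_cases y with ⟨hy, _⟩ | ⟨hy, _⟩ <;>
        rw [hx, hy] <;> omega
    omega
  have h0 : ((e - 1 : ℕ) : ℤ) * x + ((e + 1 : ℕ) : ℤ) * y = 0 := by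
    rw [hc1, hc2]
    apply Int.eq_zero_of_abs_lt_dvd hdvd
    calc |((e : ℤ) - 1) * x + (e + 1) * y| ≤ |((e : ℤ) - 1) * x| + |((e : ℤ) + 1) * y| :=
          abs_add_le _ _
      _ = (e - 1) * |x| + (e + 1) * |y| := by
        rw [abs_mul, abs_mul, abs_of_nonneg (by linarith : (0 : ℤ) ≤ (e : ℤ) - 1),
          abs_of_nonneg (by linarith : (0 : ℤ) ≤ (e : ℤ) + 1)]
      _ ≤ (e + 1) * (|x| + |y|) := by nlinarith [abs_nonneg x]
      _ ≤ (e + 1) * (2 * (e : ℤ) - 2) := mul_le_mul_of_nonneg_left hle (by linarith)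
      _ < n := by nlinarith
  refine homog (by omega) (by omega) ?_ h0 ?_
  · obtain ⟨k, hk⟩ : ∃ k, e = 2 * k + 2 := ⟨e / 2 - 1, by omega⟩
    have e1 : e - 1 = 2 * k + 1 := by omega
    have e2 : e + 1 = (2 * k + 1) + 2 := by omega
    rw [e1, e2, Nat.coprime_self_add_right, Nat.coprime_two_right]
    exact ⟨k, rfl⟩
  · rw [hc1, hc2]; linarith

/-- The pair `{e - 2, e + 2}` for odd `e` and `n ≡ 2 mod 4`. -/
theorem odd_two (e n : ℕ) [NeZero n] (he : 3 ≤ e) (hn : 2 * e ^ 2 ≤ n) (he2 : e % 2 = 1)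
    (hn4 : n % 4 = 2) :
    Ind2 (2 * (e : ℤ) - 1) ((e - 2 : ℕ) : ZMod n) ((e + 2 : ℕ) : ZMod n) := by
  intro x y hxy h
  have hdvd := zsmul_rel (e - 2) (e + 2) x y h
  have he' : (3 : ℤ) ≤ e := by exact_mod_cast he
  have hn' : 2 * (e : ℤ) ^ 2 ≤ n := by exact_mod_cast hn
  have hc1 : ((e - 2 : ℕ) : ℤ) = (e : ℤ) - 2 := by omega
  have hc2 : ((e + 2 : ℕ) : ℤ) = (e : ℤ) + 2 := by push_cast; ring
  rw [hc1, hc2] at hdvd
  obtain ⟨j, hj⟩ := hdvd
  obtain ⟨k, hk⟩ : ∃ k : ℤ, (e : ℤ) = 2 * k + 1 := ⟨(e : ℤ) / 2, by omega⟩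
  obtain ⟨l, hl⟩ : ∃ l : ℤ, (n : ℤ) = 4 * l + 2 := ⟨(n : ℤ) / 4, by omega⟩
  have hform : ((e : ℤ) - 2) * x + ((e : ℤ) + 2) * y = e * (x + y) - 2 * (x - y) := by ring
  -- size: `|j| ≤ 1`
  have hbig : |((e : ℤ) - 2) * x + (e + 2) * y| ≤ (e + 2) * (2 * (e : ℤ) - 1) := by
    calc |((e : ℤ) - 2) * x + (e + 2) * y| ≤ |((e : ℤ) - 2) * x| + |((e : ℤ) + 2) * y| :=
          abs_add_le _ _
      _ = (e - 2) * |x| + (e + 2) * |y| := by
        rw [abs_mul, abs_mul, abs_of_nonneg (by linarith : (0 : ℤ) ≤ (e : ℤ) - 2),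
          abs_of_nonneg (by linarith : (0 : ℤ) ≤ (e : ℤ) + 2)]
      _ ≤ (e + 2) * (|x| + |y|) := by nlinarith [abs_nonneg x]
      _ ≤ (e + 2) * (2 * (e : ℤ) - 1) := mul_le_mul_of_nonneg_left hxy (by linarith)
  have hj1 : -1 ≤ j ∧ j ≤ 1 := by
    rw [hj, abs_le] at hbig
    constructor
    · by_contra hcon
      push Not at hcon
      have h5 : j ≤ -2 := by omega
      nlinarith
    · by_contra hcon
      push Not at hcon
      have h5 : 2 ≤ j := by omega
      nlinarith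
  have hnz : ∀ x y : ℤ, |x| + |y| ≤ 2 * (e : ℤ) - 1 →
      ((e : ℤ) - 2) * x + ((e : ℤ) + 2) * y ≠ n := by
    intro x y hxy hh
    have hform : ((e : ℤ) - 2) * x + ((e : ℤ) + 2) * y = e * (x + y) - 2 * (x - y) := by ring
    rw [hform] at hh
    -- `x + y ≡ 2 mod 4`
    have hu : x + y ≤ 2 * (e : ℤ) - 1 := by
      have := le_abs_self x; have := le_abs_self y; linarith
    have hv : -(x - y) ≤ 2 * (e : ℤ) - 1 := by
      have := neg_le_abs x; have := le_abs_self y; linarith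
    obtain ⟨s, hs⟩ : ∃ s : ℤ, s = x + y := ⟨_, rfl⟩
    have hxs : x = s - y := by rw [hs]; ring
    have hs4 : s % 4 = 2 := by
      have h6 : (e : ℤ) * s - 2 * (x - y) = n := by rw [hs]; exact hh
      have h7 : x - y = s - 2 * y := by rw [hxs]; ring
      rw [h7, hk, hl] at h6
      -- `(2k+1) s - 2 s + 4 y = 4 l + 2`
      have h8 : 2 * (k * s) - s + 4 * y = 4 * l + 2 := by linarith
      rcases Int.emod_two_eq_zero_or_one s with h9 | h9
      · obtain ⟨σ, hσ⟩ : ∃ σ : ℤ, s = 2 * σ := ⟨s / 2, by omega⟩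
        have h10 : k * s = 2 * (k * σ) := by rw [hσ]; ring
        rw [h10] at h8
        omega
      · omega
    have hs2 : s ≤ 2 * (e : ℤ) - 4 := by omega
    have hd2 : -(x - y) ≤ 2 * (e : ℤ) - 2 := by omega
    have h11 : (e : ℤ) * s ≤ e * (2 * (e : ℤ) - 4) :=
      mul_le_mul_of_nonneg_left hs2 (by linarith)
    rw [← hs] at hh
    nlinarith
  have hj0 : j = 0 := by
    rcases (by omega : j = -1 ∨ j = 0 ∨ j = 1) with h0 | h0 | h0
    · exfalso
      apply hnz (-x) (-y) (by rw [abs_neg, abs_neg]; exact hxy)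
      rw [h0] at hj
      linarith
    · exact h0
    · exfalso
      apply hnz x y hxy
      rw [h0] at hj
      linarith
  have h0 : ((e - 2 : ℕ) : ℤ) * x + ((e + 2 : ℕ) : ℤ) * y = 0 := by
    rw [hc1, hc2, hj, hj0, mul_zero]
  refine homog (by omega) (by omega) ?_ h0 ?_
  · obtain ⟨q, hq⟩ : ∃ q, e = 2 * q + 3 := ⟨(e - 3) / 2, by omega⟩
    have e1 : e - 2 = 2 * q + 1 := by omega
    have e2 : e + 2 = (2 * q + 1) + 4 := by omega
    rw [e1, e2, Nat.coprime_self_add_right]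
    have : Nat.Coprime (2 * q + 1) (2 ^ 2) :=
      Nat.Coprime.pow_right 2 (Nat.coprime_two_right.2 ⟨q, rfl⟩)
    exact this
  · rw [hc1, hc2]; linarith

end lower

/-- For every odd `t ≥ 3` and every positive integer `n`: `τ_±(ℤ_n, [1,t]) = 1` if and only if
`t + 1 ≤ n ≤ b_t`, or `b_t + 2 ≤ n ≤ b_t + (t+1)/2` and either `t ≡ 3 mod 4` and `n` is odd, or
`t ≡ 1 mod 4` and `n ≢ 2 mod 4`. -/
theorem result : ∀ t : ℕ, t % 2 = 1 → 3 ≤ t → ∀ n : ℕ, 1 ≤ n →
    (tau n t = 1 ↔ (t + 1 ≤ n ∧ n ≤ bt t) ∨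
      (bt t + 2 ≤ n ∧ n ≤ bt t + (t + 1) / 2 ∧
        ((t % 4 = 3 ∧ n % 2 = 1) ∨ (t % 4 = 1 ∧ n % 4 ≠ 2)))) := by
  intro t ht2 ht3 n hn
  have : NeZero n := ⟨by omega⟩
  obtain ⟨e, rfl⟩ : ∃ e, t = 2 * e + 3 := ⟨(t - 3) / 2, by omega⟩
  -- `E = e + 2` is the parameter with `t = 2 E - 1`
  set E := e + 2 with hE
  have hbt : bt (2 * e + 3) = 2 * E ^ 2 - 1 := by
    unfold bt
    have h1 : (2 * e + 3) ^ 2 = 2 * (2 * e ^ 2 + 6 * e + 4) + 1 := by ring
    have h2 : (2 * e + 3) ^ 2 / 2 = 2 * e ^ 2 + 6 * e + 4 := by omega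
    have h3 : E ^ 2 = e ^ 2 + 4 * e + 4 := by rw [hE]; ring
    omega
  have hE2 : 4 ≤ E ^ 2 := by rw [hE]; nlinarith
  have hEE : E * 2 ≤ E ^ 2 := by rw [hE]; nlinarith
  have htE : ((2 * e + 3 : ℕ) : ℤ) = 2 * (E : ℤ) - 1 := by rw [hE]; push_cast; ring
  rw [hbt]
  constructor
  · intro htau
    by_contra hcon
    push Not at hcon
    obtain ⟨hcon1, hcon2⟩ := hcon
    have hnt : 2 * e + 3 + 1 ≤ n := by
      by_contra hlt
      rw [tau_eq_zero n _ (by omega)] at htau
      omega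
    have hnb := hcon1 hnt
    have hn2 : 2 * E ^ 2 ≤ n := by omega
    -- show `2 ≤ tau`
    have h2 : 2 ≤ tau n (2 * e + 3) := by
      by_cases hbig : 2 * E ^ 2 + E ≤ n
      · refine two_le_tau n _ (E : ZMod n) ((E + 1 : ℕ) : ZMod n) (ne_cast (by omega) (by omega)) ?_
        rw [htE]
        exact large E n (by omega) hbig
      · rcases Nat.even_or_odd E with heE | hoE
        · have hE0 : E % 2 = 0 := Nat.even_iff.1 heE
          have hn0 : n % 2 = 0 := by
            by_contra hn1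
            have hcon3 := hcon2 (by
              have : n ≠ 2 * E ^ 2 := by intro h; omega
              omega) (by omega)
            exact (hcon3.1 (by omega)) (by omega)
          refine two_le_tau n _ ((E - 1 : ℕ) : ZMod n) ((E + 1 : ℕ) : ZMod n)
            (ne_cast (by omega) (by omega)) ?_
          rw [htE]
          exact even_even E n (by omega) hn2 hE0 hn0
        · have hE1 : E % 2 = 1 := Nat.odd_iff.1 hoE
          have hn4 : n % 4 = 2 := by
            by_contra hn1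
            have hEsq : E ^ 2 % 4 = 1 := by
              obtain ⟨k, hk⟩ := hoE
              rw [hk]
              have : (2 * k + 1) ^ 2 = 4 * (k ^ 2 + k) + 1 := by ring
              omega
            have hcon3 := hcon2 (by
              have : n ≠ 2 * E ^ 2 := by intro h; omega
              omega) (by omega)
            exact hn1 (hcon3.2 (by omega))
          refine two_le_tau n _ ((E - 2 : ℕ) : ZMod n) ((E + 2 : ℕ) : ZMod n)
            (ne_cast (by omega) (by omega)) ?_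
          rw [htE]
          exact odd_two E n (by omega) hn2 hE1 hn4
    omega
  · intro hcase
    have hle : tau n (2 * e + 3) ≤ 1 := by
      apply tau_le_one
      intro a b _
      rw [htE]
      rcases hcase with ⟨_, h2⟩ | ⟨h1, h2, h3⟩
      · exact small_n E (by omega) a b
      · refine middle E (by omega) (by omega) (by omega) ?_ a b
        rcases h3 with ⟨h4, h5⟩ | ⟨h4, h5⟩
        · left; omega
        · right; omega
    have hge : 1 ≤ tau n (2 * e + 3) := by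
      apply one_le_tau
      rcases hcase with ⟨h1, _⟩ | ⟨h1, h2, h3⟩
      · exact h1
      · omega
    omega

end Pool.Agent.Results.MP_c28122_co.OddOne
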